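import Pool.Agent.W306.EL.Stm

set_option autoImplicit false

namespace Pool.Agent.W125.EL

open Pool.Agent.W306.EL

theorem step (S : Finset ℝ) (x y : ℝ) (L : ℕ) (hxy : x < y) (hy : y ∈ S)
    (h : L ≤ (S.filter (fun t => t ≤ x)).card) : L + 1 ≤ (S.filter (fun t => t ≤ y)).card := by
  classical
  have h1 : insert y (S.filter (fun t => t ≤ x)) ⊆ S.filter (fun t => t ≤ y) := by
    intro t ht
    rw [Finset.mem_insert] at ht
    rw [Finset.mem_filter]
    rcases ht with rfl | ht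
    · exact ⟨hy, le_rfl⟩
    · rw [Finset.mem_filter] at ht
      exact ⟨ht.1, ht.2.trans hxy.le⟩
  have h2 : y ∉ S.filter (fun t => t ≤ x) := by
    rw [Finset.mem_filter]
    rintro ⟨-, h3⟩
    linarith
  have h3 := Finset.card_le_card h1
  rw [Finset.card_insert_of_notMem h2] at h3
  omega

section

variable {n : ℕ} {w : ℕ → ℕ → ℝ} {β : ℝ} {S : Finset ℝ}

theorem base (hβ : ∀ i, β ≤ w i (i + 1)) (hn : 2 ≤ n)
    (hS : ∀ i j, i < j → j < i + n → β ≤ w i j → w i j ∈ S) (b : ℕ) :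
    1 ≤ (S.filter (fun t => t ≤ w b (b + 1))).card := by
  refine Finset.card_pos.2 ⟨w b (b + 1), ?_⟩
  rw [Finset.mem_filter]
  exact ⟨hS b (b + 1) (by omega) (by omega) (hβ b), le_rfl⟩

theorem chain (hw : Cyc n w) (hβ : ∀ i, β ≤ w i (i + 1))
    (hS : ∀ i j, i < j → j < i + n → β ≤ w i j → w i j ∈ S) (M : ℝ)
    (hM : ∀ i j, i < j → j < i + n → w i j ≤ M) (s m : ℕ) (hmn : m < n)
    (hsm : w s (s + m) = M) (L : ℕ) :
    ∀ b, s + 1 ≤ b → b + (L + 1) + 1 ≤ s + m →
      β ≤ w b (b + (L + 1)) ∧ L + 1 ≤ (S.filter (fun t => t ≤ w b (b + (L + 1)))).card := by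
  induction L with
  | zero =>
    intro b hb hbm
    exact ⟨hβ b, base hβ (by omega) hS b⟩
  | succ L ih =>
    intro b hb hbm
    have h1 := hw.hex s b (b + 1) (b + (L + 1)) (b + (L + 1 + 1)) (s + m) (by omega) (by omega)
      (by omega) (by omega) (by omega) (by omega)
      (by rw [hsm]; exact hM _ _ (by omega) (by omega))
      (by rw [hsm]; exact hM _ _ (by omega) (by omega))
    obtain ⟨a1, a2⟩ := ih b hb (by omega)
    obtain ⟨b1, b2⟩ := ih (b + 1) (by omega) (by omega)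
    have e : b + 1 + (L + 1) = b + (L + 1 + 1) := by omega
    rw [e] at b1 b2
    rcases min_lt_iff.1 h1 with h2 | h2
    · have h3 : β ≤ w b (b + (L + 1 + 1)) := by linarith
      exact ⟨h3, step S _ _ _ h2 (hS _ _ (by omega) (by omega) h3) a2⟩
    · have h3 : β ≤ w b (b + (L + 1 + 1)) := by linarith
      exact ⟨h3, step S _ _ _ h2 (hS _ _ (by omega) (by omega) h3) b2⟩

theorem per2 (hw : Cyc n w) (i j : ℕ) : w i (j + n) = w i j := by
  rw [hw.symm, hw.per, hw.symm]

theorem perk (hw : Cyc n w) (k i j : ℕ) : w (i + k * n) (j + k * n) = w i j := by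
  induction k with
  | zero => simp
  | succ k ih =>
    have e1 : i + (k + 1) * n = i + k * n + n := by ring
    have e2 : j + (k + 1) * n = j + k * n + n := by ring
    rw [e1, e2, hw.per, per2 hw, ih]

theorem compl (hw : Cyc n w) (s m : ℕ) (hmn : m ≤ n) : w (s + m) (s + m + (n - m)) = w s (s + m) := by
  have e : s + m + (n - m) = s + n := by omega
  rw [e, per2 hw, hw.symm]

/-- the values up to `w s (s + m - 1)` -/
theorem low (hw : Cyc n w) (hβ : ∀ i, β ≤ w i (i + 1))
    (hS : ∀ i j, i < j → j < i + n → β ≤ w i j → w i j ∈ S) (M : ℝ)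
    (hM : ∀ i j, i < j → j < i + n → w i j ≤ M) (s k : ℕ) (hmn : k + 2 < n)
    (hsm : w s (s + (k + 2)) = M) :
    β ≤ w s (s + (k + 1)) ∧ k + 1 ≤ (S.filter (fun t => t ≤ w s (s + (k + 1)))).card := by
  rcases k with _ | k
  · exact ⟨hβ s, base hβ (by omega) hS s⟩
  · obtain ⟨a1, a2⟩ := chain hw hβ hS M hM s (k + 1 + 2) hmn hsm k (s + 1) le_rfl (by omega)
    have h1 := hw.K (s + 1) (s + 1 + (k + 1)) (s + (k + 1 + 2)) (s + n) (by omega) (by omega)
      (by omega) (by omega)
    have e1 : w (s + (k + 1 + 2)) (s + n) = M := by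
      rw [per2 hw, hw.symm, hsm]
    have e2 : w (s + 1 + (k + 1)) (s + n) = w s (s + (k + 1 + 1)) := by
      rw [per2 hw, hw.symm]
      congr 1
      omega
    rw [e1, e2] at h1
    have h2 : w (s + 1) (s + (k + 1 + 2)) ≤ M := hM _ _ (by omega) (by omega)
    have h3 : w (s + 1) (s + 1 + (k + 1)) < w s (s + (k + 1 + 1)) := by linarith
    have h4 : β ≤ w s (s + (k + 1 + 1)) := by linarith
    exact ⟨h4, step S _ _ _ h3 (hS _ _ (by omega) (by omega) h4) a2⟩

end

theorem t_ALT : S_ALT := by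
  intro n w β S hn hw hβ hS
  -- the maximum
  have hne : ((Finset.range n) ×ˢ (Finset.Ico 1 n)).Nonempty :=
    ⟨(0, 1), by simp only [Finset.mem_product, Finset.mem_range, Finset.mem_Ico]; omega⟩
  obtain ⟨⟨s0, m0⟩, hmem, hmax⟩ := Finset.exists_max_image _ (fun q : ℕ × ℕ => w q.1 (q.1 + q.2)) hne
  simp only [Finset.mem_product, Finset.mem_range, Finset.mem_Ico] at hmem hmax
  obtain ⟨-, hm1, hm2⟩ := hmem
  set M := w s0 (s0 + m0) with hMdef
  have hM : ∀ i j, i < j → j < i + n → w i j ≤ M := by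
    intro i j hij hji
    have h1 := hmax (i % n, j - i) ⟨Nat.mod_lt _ (by omega), by omega, by omega⟩
    simp only at h1
    have h2 := perk hw (i / n) (i % n) (i % n + (j - i))
    have e1 : i % n + i / n * n = i := Nat.mod_add_div' i n
    have e2 : i % n + (j - i) + i / n * n = j := by omega
    rw [e1, e2] at h2
    rw [h2]
    exact h1
  obtain ⟨s, m, hm, hmn, h2m, hsm⟩ : ∃ s m, 0 < m ∧ m < n ∧ n ≤ 2 * m ∧ w s (s + m) = M := by
    by_cases h : n ≤ 2 * m0
    · exact ⟨s0, m0, by omega, hm2, h, rfl⟩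
    · exact ⟨s0 + m0, n - m0, by omega, by omega, by omega, compl hw s0 m0 hm2.le⟩
  -- the bound `m - 1`
  have key : ∀ s m, m < n → 2 ≤ m → w s (s + m) = M → m - 1 ≤ S.card := by
    intro s m hmn h2 hsm
    obtain ⟨k, rfl⟩ : ∃ k, m = k + 2 := ⟨m - 2, by omega⟩
    have h1 := (low hw hβ hS M hM s k hmn hsm).2
    have h2 := Finset.card_filter_le S (fun t => t ≤ w s (s + (k + 1)))
    omega
  by_cases hlt : n < 2 * m
  · have h1 := key s m hmn (by omega) hsm
    omega
  · have hnm : n = 2 * m := by omega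
    obtain ⟨k, rfl⟩ : ∃ k, m = k + 2 := ⟨m - 2, by omega⟩
    obtain ⟨h1, h2⟩ := low hw hβ hS M hM s k hmn hsm
    rcases (hM s (s + (k + 1)) (by omega) (by omega)).lt_or_eq with h3 | h3
    · have h4 : M ∈ S := by
        rw [← hsm]
        exact hS _ _ (by omega) (by omega) (by rw [hsm]; linarith)
      have h5 := step S _ _ _ h3 h4 h2
      have h6 := Finset.card_filter_le S (fun t => t ≤ M)
      omega
    · have h4 := compl hw s (k + 1) (by omega)
      rw [h3] at h4
      have h5 := key (s + (k + 1)) (n - (k + 1)) (by omega) (by omega) h4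
      omega

end Pool.Agent.W125.EL
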